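import Pool.Agent.Helper81.BI.SymInj

/-! BI-6: averaging a bounded sequence by a kernel whose symbol vanishes outside `[-r, r]` gives a
band-limited sequence. -/

open Complex Filter Topology

namespace Pool.Agent.Helper57.BI

/-- Absolute summability of the double series. -/
theorem summable_double {a b : ℤ → ℂ} (ha : Summable a) (hb : Summable b) {φ : ℤ → ℂ}
    (hφ : ∃ C, ∀ n, ‖φ n‖ ≤ C) :
    Summable (fun p : ℤ × ℤ => b p.1 * (a p.2 * φ (p.1 + p.2))) := by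
  obtain ⟨C, hC⟩ := hφ
  have h1 : Summable (fun p : ℤ × ℤ => b p.1 * a p.2) :=
    summable_mul_of_summable_norm hb.norm ha.norm
  refine Summable.of_norm_bounded (g := fun p : ℤ × ℤ => C * ‖b p.1 * a p.2‖)
    (h1.norm.mul_left C) ?_
  intro p
  rw [← mul_assoc, norm_mul, mul_comm]
  exact mul_le_mul_of_nonneg_right (hC _) (norm_nonneg _)

/-- The reindexing `(m, n) ↦ (n, m - n)`. -/
def shearEquiv : ℤ × ℤ ≃ ℤ × ℤ where
  toFun q := (q.2, q.1 - q.2)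
  invFun p := (p.1 + p.2, p.1)
  left_inv q := by
    rcases q with ⟨m, n⟩
    simp
  right_inv p := by
    rcases p with ⟨n, l⟩
    simp

theorem summable_shear {a b : ℤ → ℂ} (ha : Summable a) (hb : Summable b) {φ : ℤ → ℂ}
    (hφ : ∃ C, ∀ n, ‖φ n‖ ≤ C) :
    Summable (fun q : ℤ × ℤ => b q.2 * (a (q.1 - q.2) * φ q.1)) := by
  have h := (shearEquiv.summable_iff).2 (summable_double ha hb hφ)
  refine h.congr ?_
  intro q
  simp [shearEquiv]

theorem summable_conv {a b : ℤ → ℂ} (ha : Summable a) (hb : Summable b) :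
    Summable (fun m : ℤ => ∑' n : ℤ, b n * a (m - n)) := by
  have h := (summable_shear ha hb (φ := fun _ => 1) ⟨1, fun n => by simp⟩).prod
  simpa using h

/-- Double series in convolution form. -/
theorem tsum_conv {a b : ℤ → ℂ} (ha : Summable a) (hb : Summable b) {φ : ℤ → ℂ}
    (hφ : ∃ C, ∀ n, ‖φ n‖ ≤ C) :
    ∑' n : ℤ, b n * ∑' l : ℤ, a l * φ (n + l) = ∑' m : ℤ, (∑' n : ℤ, b n * a (m - n)) * φ m := by
  have h1 := summable_double ha hb hφ
  have h2 := summable_shear ha hb hφ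
  have e1 : ∑' n : ℤ, b n * ∑' l : ℤ, a l * φ (n + l) =
      ∑' p : ℤ × ℤ, b p.1 * (a p.2 * φ (p.1 + p.2)) := by
    rw [h1.tsum_prod]
    refine tsum_congr fun n => ?_
    rw [← tsum_mul_left]
  have e2 : ∑' p : ℤ × ℤ, b p.1 * (a p.2 * φ (p.1 + p.2)) =
      ∑' q : ℤ × ℤ, b q.2 * (a (q.1 - q.2) * φ q.1) := by
    rw [← shearEquiv.tsum_eq (fun p : ℤ × ℤ => b p.1 * (a p.2 * φ (p.1 + p.2)))]
    refine tsum_congr fun q => ?_
    simp [shearEquiv]
  rw [e1, e2, h2.tsum_prod]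
  refine tsum_congr fun m => ?_
  rw [← tsum_mul_right]
  refine tsum_congr fun n => ?_
  simp only [mul_assoc]

/-- The symbol of a convolution. -/
theorem sym_conv {a b : ℤ → ℂ} (ha : Summable a) (hb : Summable b) (θ : ℝ) :
    sym (fun m : ℤ => ∑' n : ℤ, b n * a (m - n)) θ = sym b θ * sym a θ := by
  have h := tsum_conv ha hb (φ := fun m : ℤ => ee (m * θ)) ⟨1, fun n => (norm_ee _).le⟩
  unfold sym
  rw [← h, ← tsum_mul_right]
  refine tsum_congr fun n => ?_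
  have e : ∑' l : ℤ, a l * ee (((n + l : ℤ) : ℝ) * θ) =
      ee ((n : ℝ) * θ) * ∑' l : ℤ, a l * ee ((l : ℝ) * θ) := by
    rw [← tsum_mul_left]
    refine tsum_congr fun l => ?_
    have e1 : (((n + l : ℤ) : ℝ) * θ) = (n : ℝ) * θ + (l : ℝ) * θ := by push_cast; ring
    rw [e1, ee_add]
    ring
  rw [e]
  ring

theorem BL_avg_aux
    (sym_inj : ∀ {a : ℤ → ℂ}, Summable a → (∀ θ : ℝ, |θ| ≤ 1 / 2 → sym a θ = 0) → ∀ l : ℤ, a l = 0)
    {r : ℝ} {a : ℤ → ℂ} (ha : Summable a)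
    (hs : ∀ θ : ℝ, r < |θ| → |θ| ≤ 1 / 2 → sym a θ = 0)
    {φ : ℤ → ℂ} (hφ : ∃ C, ∀ n, ‖φ n‖ ≤ C) : BL r (fun n => ∑' l : ℤ, a l * φ (n + l)) := by
  intro b hb hb0
  have h0 : ∀ m : ℤ, (∑' n : ℤ, b n * a (m - n)) = 0 := by
    refine sym_inj (summable_conv ha hb) ?_
    intro θ hθ
    rw [sym_conv ha hb]
    rcases le_or_gt |θ| r with h | h
    · rw [hb0 θ h, zero_mul]
    · rw [hs θ h hθ, mul_zero]
  rw [tsum_conv ha hb hφ]
  simp [h0]

/-- BI-6: averaging by a kernel produces band-limited sequences. -/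
theorem BL_avg {r : ℝ} {a : ℤ → ℂ} (ha : Summable a)
    (hs : ∀ θ : ℝ, r < |θ| → |θ| ≤ 1 / 2 → sym a θ = 0)
    {φ : ℤ → ℂ} (hφ : ∃ C, ∀ n, ‖φ n‖ ≤ C) : BL r (fun n => ∑' l : ℤ, a l * φ (n + l)) :=
  BL_avg_aux (fun h h' l => sym_inj_aux h h' l) ha hs hφ

end Pool.Agent.Helper57.BI
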