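import Pool.Agent.Helper57.BI.Defs

/-! Injectivity of the symbol (BI-1 / BI-1'), own copy under the names `sym_inv_aux`, `sym_inj_aux`. -/

open MeasureTheory Complex Filter Topology

namespace Pool.Agent.Helper57.BI

theorem int_ee_aux (k : ℤ) :
    ∫ θ in (-(1 / 2) : ℝ)..(1 / 2), ee (k * θ) = if k = 0 then 1 else 0 := by
  split_ifs with hk
  · subst hk
    simp [ee_zero]
    norm_num
  · have hk' : (k : ℂ) ≠ 0 := by exact_mod_cast hk
    have hc : (2 * Real.pi * k * Complex.I : ℂ) ≠ 0 := by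
      have := Real.pi_ne_zero
      simp [hk', Complex.I_ne_zero, this]
    have h1 : ∀ θ : ℝ, ee (k * θ) = Complex.exp ((2 * Real.pi * k * Complex.I) * θ) := by
      intro θ
      unfold ee
      congr 1
      push_cast
      ring
    simp only [h1]
    rw [integral_exp_mul_complex hc]
    have h2 : Complex.exp (2 * Real.pi * k * Complex.I * ((1 / 2 : ℝ) : ℂ)) =
        Complex.exp (2 * Real.pi * k * Complex.I * ((-(1 / 2) : ℝ) : ℂ)) := by
      rw [Complex.exp_eq_exp_iff_exists_int]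
      exact ⟨k, by push_cast; ring⟩
    rw [h2, sub_self, zero_div]

theorem sym_inv_aux {a : ℤ → ℂ} (ha : Summable a) (l : ℤ) :
    a l = ∫ θ in (-(1 / 2) : ℝ)..(1 / 2), sym a θ * ee (-(l * θ)) := by
  have hcont : ∀ m : ℤ, Continuous fun θ : ℝ => a m * ee (m * θ) * ee (-(l * θ)) := by
    intro m
    exact (continuous_const.mul (continuous_ee.comp (by fun_prop))).mul
      (continuous_ee.comp (by fun_prop))
  have hsum := intervalIntegral.hasSum_intervalIntegral_of_summable_norm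
    (a := (-(1 / 2) : ℝ)) (b := 1 / 2) (f := fun m : ℤ => (⟨_, hcont m⟩ : C(ℝ, ℂ))) (by
      refine Summable.of_nonneg_of_le (fun m => norm_nonneg _) (fun m => ?_) ha.norm
      rw [ContinuousMap.norm_le _ (norm_nonneg _)]
      intro x
      simp [norm_ee])
  have h1 : ∀ θ : ℝ, ∑' m : ℤ, (⟨_, hcont m⟩ : C(ℝ, ℂ)) θ = sym a θ * ee (-(l * θ)) := by
    intro θ
    unfold sym
    rw [← tsum_mul_right]
    rfl
  simp only [h1] at hsum
  have h2 : ∀ m : ℤ, ∫ θ in (-(1 / 2) : ℝ)..(1 / 2), (⟨_, hcont m⟩ : C(ℝ, ℂ)) θ =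
      if m = l then a l else 0 := by
    intro m
    have h3 : ∀ θ : ℝ, (⟨_, hcont m⟩ : C(ℝ, ℂ)) θ = a m * ee (((m - l : ℤ) : ℝ) * θ) := by
      intro θ
      have : (((m - l : ℤ) : ℝ) * θ) = m * θ + -(l * θ) := by push_cast; ring
      rw [this, ee_add, ← mul_assoc]
      rfl
    simp only [h3]
    rw [intervalIntegral.integral_const_mul, int_ee_aux]
    by_cases h : m = l
    · subst h; simp
    · have : m - l ≠ 0 := sub_ne_zero.2 h
      simp [h, this]
  simp only [h2] at hsum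
  exact (hasSum_ite_eq l (a l)).unique hsum

theorem sym_inj_aux {a : ℤ → ℂ} (ha : Summable a) (h : ∀ θ : ℝ, |θ| ≤ 1 / 2 → sym a θ = 0)
    (l : ℤ) : a l = 0 := by
  rw [sym_inv_aux ha l]
  have h1 : ∫ θ in (-(1 / 2) : ℝ)..(1 / 2), sym a θ * ee (-(l * θ)) =
      ∫ θ in (-(1 / 2) : ℝ)..(1 / 2), (0 : ℂ) := by
    apply intervalIntegral.integral_congr
    intro θ hθ
    rw [Set.uIcc_of_le (by norm_num), Set.mem_Icc] at hθ
    have : |θ| ≤ 1 / 2 := abs_le.2 hθ
    simp [h θ this]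
  rw [h1]
  simp

end Pool.Agent.Helper57.BI
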